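import Mathlib.Algebra.Order.Ring.Nat
import Mathlib.Tactic.NormNum.Pow
import Mathlib.Data.Fintype.EquivFin

/-! A verified checker for branching proofs that every red/blue colouring of the edges of `K13`
contains a monochromatic `K1 + 2 P3`.  Leaves of a proof tree either exhibit the graph, or quote an
earlier nogood after a permutation of the vertices and possibly a swap of the colours. -/

namespace Pool.Agent.MP_62567c_co

/-- `u v` is an edge of `K13` of colour `k`. -/
def E (c : ℕ → ℕ → Bool) (k : Bool) (u v : ℕ) : Prop := u < 13 ∧ v < 13 ∧ u ≠ v ∧ c u v = k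

/-- A symmetric colouring with no monochromatic `K1 + 2 P3`. -/
structure Good (c : ℕ → ℕ → Bool) : Prop where
  symm : ∀ u v, c u v = c v u
  free : ∀ (k : Bool) (x b a1 a2 d e1 e2 : ℕ), E c k x b → E c k x a1 → E c k x a2 → E c k b a1 →
    E c k b a2 → E c k x d → E c k x e1 → E c k x e2 → E c k d e1 → E c k d e2 → a1 ≠ a2 →
    e1 ≠ e2 → b ≠ d → b ≠ e1 → b ≠ e2 → a1 ≠ d → a1 ≠ e1 → a1 ≠ e2 → a2 ≠ d → a2 ≠ e1 →
    a2 ≠ e2 → False

/-- All bits of the mask `X` are edges of colour `k`. -/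
def Col (c : ℕ → ℕ → Bool) (k : Bool) (X : ℕ) : Prop :=
  ∀ u v, u < 16 → v < 16 → X.testBit (16 * u + v) = true → E c k u v

def nib (w i : ℕ) : ℕ := Nat.land (Nat.shiftRight w i) 15

def bit (i : ℕ) : ℕ := Nat.shiftLeft 1 i

def emask (u v : ℕ) : ℕ :=
  Nat.lor (bit (Nat.add (Nat.mul 16 u) v)) (bit (Nat.add (Nat.mul 16 v) u))

def fOK' (X x b a1 a2 d e1 e2 : ℕ) : Bool :=
  !(Nat.beq a1 a2) && !(Nat.beq e1 e2) &&
  Nat.beq (Nat.land (Nat.lor (bit b) (Nat.lor (bit a1) (bit a2)))
    (Nat.lor (bit d) (Nat.lor (bit e1) (bit e2)))) 0 &&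
  (fun M => Nat.beq (Nat.land X M) M)
    (Nat.lor (Nat.shiftLeft (Nat.lor (Nat.lor (bit b) (Nat.lor (bit a1) (bit a2)))
        (Nat.lor (bit d) (Nat.lor (bit e1) (bit e2)))) (Nat.mul 16 x))
      (Nat.lor (Nat.shiftLeft (Nat.lor (bit a1) (bit a2)) (Nat.mul 16 b))
        (Nat.shiftLeft (Nat.lor (bit e1) (bit e2)) (Nat.mul 16 d))))

def fOK (X w : ℕ) : Bool :=
  fOK' X (nib w 2) (nib w 6) (nib w 10) (nib w 14) (nib w 18) (nib w 22) (nib w 26)

def pv (p i : ℕ) : ℕ := nib p (Nat.mul 4 i)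

def orPow (p : ℕ) : ℕ → ℕ
  | 0 => 0
  | i + 1 => Nat.lor (orPow p i) (bit (pv p i))

def isRed (e : ℕ) : Bool := Nat.beq (Nat.land (Nat.shiftRight e 8) 1) 0

/-- The colouring `c` has all the coloured edges listed in the code `e`. -/
def hold (c : ℕ → ℕ → Bool) : ℕ → ℕ → Prop
  | 0, _ => True
  | f + 1, e => e ≤ 1 ∨ (c (nib e 0) (nib e 4) = isRed e ∧ hold c f (Nat.shiftRight e 9))

def tb (X i : ℕ) : Bool := Nat.beq (Nat.land (Nat.shiftRight X i) 1) 1

def refChk (p R B : ℕ) : ℕ → ℕ → Bool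
  | 0, _ => true
  | f + 1, e => Nat.ble e 1 ||
      (tb (bif isRed e then R else B) (Nat.add (Nat.mul 16 (pv p (nib e 0))) (pv p (nib e 4))) &&
        refChk p R B f (Nat.shiftRight e 9))

def refOK (tbl : List ℕ) (k R B w : ℕ) : Bool :=
  (fun j p => Nat.blt j k && Nat.beq (orPow p 13) 8191 &&
    (bif Nat.beq (Nat.land (Nat.shiftRight w 2) 1) 0 then refChk p R B 80 (tbl.getD j 0)
      else refChk p B R 80 (tbl.getD j 0)))
    (Nat.land (Nat.shiftRight w 3) 1023) (Nat.shiftRight w 13)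

def chk (tbl : List ℕ) (k : ℕ) : ℕ → ℕ → ℕ → ℕ → ℕ
  | 0, _, _, _ => 0
  | f + 1, R, B, s =>
    bif Nat.beq (Nat.land s 3) 0 then
      bif Nat.blt (nib s 2) (nib s 6) && Nat.blt (nib s 6) 13 then
        (fun r => bif Nat.beq r 0 then 0
            else chk tbl k f R (Nat.lor B (emask (nib s 2) (nib s 6))) r)
          (chk tbl k f (Nat.lor R (emask (nib s 2) (nib s 6))) B (Nat.shiftRight s 10))
      else 0
    else bif Nat.beq (Nat.land s 3) 1 then
      bif fOK R (Nat.land s 1073741823) then Nat.shiftRight s 30 else 0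
    else bif Nat.beq (Nat.land s 3) 2 then
      bif fOK B (Nat.land s 1073741823) then Nat.shiftRight s 30 else 0
    else bif refOK tbl k R B (Nat.land s 36893488147419103231) then Nat.shiftRight s 65 else 0

def start (tbl : List ℕ) (k s : ℕ) : ℕ → ℕ → ℕ → ℕ → Bool
  | 0, _, R, B => !(Nat.beq (chk tbl k 80 R B s) 0)
  | f + 1, e, R, B =>
    bif Nat.ble e 1 then !(Nat.beq (chk tbl k 80 R B s) 0)
    else bif Nat.blt (nib e 0) (nib e 4) && Nat.blt (nib e 4) 13 then
      bif isRed e then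
        start tbl k s f (Nat.shiftRight e 9) (Nat.lor R (emask (nib e 0) (nib e 4))) B
      else start tbl k s f (Nat.shiftRight e 9) R (Nat.lor B (emask (nib e 0) (nib e 4)))
    else false

def chkAll (tbl : List ℕ) : ℕ → List ℕ → Bool
  | _, [] => true
  | k, t :: ts => start tbl k t 80 (tbl.getD k 0) 0 0 && chkAll tbl (Nat.succ k) ts

/-- The code `e` is a nogood. -/
def NG (e : ℕ) : Prop := ∀ c, Good c → hold c 80 e → False

theorem nib_lt (w i : ℕ) : nib w i < 16 := by
  have : nib w i = (w >>> i) &&& 15 := rfl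
  rw [this]
  exact Nat.lt_succ_of_le Nat.and_le_right

theorem testBit_bit (i j : ℕ) : (bit i).testBit j = decide (i = j) := by
  have : bit i = 2 ^ i := by
    show 1 <<< i = 2 ^ i
    exact Nat.one_shiftLeft i
  rw [this, Nat.testBit_two_pow]

theorem testBit_lor (a b j : ℕ) : (Nat.lor a b).testBit j = (a.testBit j || b.testBit j) :=
  Nat.testBit_or a b j

theorem testBit_land (a b j : ℕ) : (Nat.land a b).testBit j = (a.testBit j && b.testBit j) :=
  Nat.testBit_and a b j

theorem testBit_shl (a x j : ℕ) :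
    (Nat.shiftLeft a (Nat.mul 16 x)).testBit (16 * x + j) = a.testBit j := by
  show (a <<< (16 * x)).testBit (16 * x + j) = a.testBit j
  rw [Nat.testBit_shiftLeft]
  simp

theorem tb_eq (X i : ℕ) (h : tb X i = true) : X.testBit i = true := by
  unfold tb at h
  have h1 : (X >>> i) &&& 1 = 1 := Nat.eq_of_beq_eq_true h
  unfold Nat.testBit
  rw [Nat.and_comm, h1]
  rfl

theorem E_symm {c : ℕ → ℕ → Bool} (hc : Good c) {k : Bool} {u v : ℕ} (h : E c k u v) :
    E c k v u := ⟨h.2.1, h.1, fun e => h.2.2.1 e.symm, by rw [hc.symm]; exact h.2.2.2⟩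

theorem Col_add {c : ℕ → ℕ → Bool} (hc : Good c) {k : Bool} {X u v : ℕ} (hX : Col c k X)
    (h : E c k u v) : Col c k (Nat.lor X (emask u v)) := by
  intro a b ha hb hab
  unfold emask at hab
  rw [testBit_lor, testBit_lor, testBit_bit, testBit_bit] at hab
  have hu := h.1
  have hv := h.2.1
  simp only [Bool.or_eq_true, decide_eq_true_eq] at hab
  rcases hab with hab | hab | hab
  · exact hX a b ha hb hab
  · have hab' : 16 * u + v = 16 * a + b := hab
    have h1 : u = a := by omega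
    have h2 : v = b := by omega
    subst h1; subst h2; exact h
  · have hab' : 16 * v + u = 16 * a + b := hab
    have h1 : v = a := by omega
    have h2 : u = b := by omega
    subst h1; subst h2; exact E_symm hc h

theorem fOK'_sound {c : ℕ → ℕ → Bool} (hc : Good c) {k : Bool} {X x b a1 a2 d e1 e2 : ℕ}
    (hX : Col c k X) (hx : x < 16) (hb : b < 16) (ha1 : a1 < 16) (ha2 : a2 < 16) (hd : d < 16)
    (he1 : e1 < 16) (he2 : e2 < 16) (h : fOK' X x b a1 a2 d e1 e2 = true) : False := by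
  unfold fOK' at h
  simp only [Bool.and_eq_true, Bool.not_eq_true'] at h
  obtain ⟨⟨⟨h1, h2⟩, h3⟩, h4⟩ := h
  have h1' : a1 ≠ a2 := Nat.ne_of_beq_eq_false h1
  have h2' : e1 ≠ e2 := Nat.ne_of_beq_eq_false h2
  have h3' := Nat.eq_of_beq_eq_true h3
  have h4' := Nat.eq_of_beq_eq_true h4
  have hdis : ∀ j, ¬ ((b = j ∨ a1 = j ∨ a2 = j) ∧ (d = j ∨ e1 = j ∨ e2 = j)) := by
    intro j hj
    have := congrArg (fun z => Nat.testBit z j) h3'
    simp only [testBit_land, testBit_lor, testBit_bit, Nat.zero_testBit] at this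
    simp only [Bool.and_eq_false_iff, Bool.or_eq_false_iff, decide_eq_false_iff_not] at this
    tauto
  have hsub : ∀ j, Nat.testBit (Nat.lor (Nat.shiftLeft (Nat.lor (Nat.lor (bit b)
        (Nat.lor (bit a1) (bit a2)))
        (Nat.lor (bit d) (Nat.lor (bit e1) (bit e2)))) (Nat.mul 16 x))
      (Nat.lor (Nat.shiftLeft (Nat.lor (bit a1) (bit a2)) (Nat.mul 16 b))
        (Nat.shiftLeft (Nat.lor (bit e1) (bit e2)) (Nat.mul 16 d)))) j = true →
      X.testBit j = true := by
    intro j hj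
    rw [← h4', testBit_land] at hj
    simp only [Bool.and_eq_true] at hj
    exact hj.1
  have hxr : ∀ j, j < 16 → (b = j ∨ a1 = j ∨ a2 = j ∨ d = j ∨ e1 = j ∨ e2 = j) → E c k x j := by
    intro j hj h
    apply hX x j hx hj
    apply hsub
    rw [testBit_lor, testBit_shl]
    simp only [testBit_lor, testBit_bit, Bool.or_eq_true, decide_eq_true_eq]
    tauto
  have hbr : ∀ j, j < 16 → (a1 = j ∨ a2 = j) → E c k b j := by
    intro j hj h
    apply hX b j hb hj
    apply hsub
    rw [testBit_lor, testBit_lor, testBit_shl _ b]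
    simp only [testBit_lor, testBit_bit, Bool.or_eq_true, decide_eq_true_eq]
    tauto
  have hdr : ∀ j, j < 16 → (e1 = j ∨ e2 = j) → E c k d j := by
    intro j hj h
    apply hX d j hd hj
    apply hsub
    rw [testBit_lor, testBit_lor, testBit_shl _ d]
    simp only [testBit_lor, testBit_bit, Bool.or_eq_true, decide_eq_true_eq]
    tauto
  refine hc.free k x b a1 a2 d e1 e2 (hxr _ hb (by tauto)) (hxr _ ha1 (by tauto))
    (hxr _ ha2 (by tauto)) (hbr _ ha1 (by tauto)) (hbr _ ha2 (by tauto)) (hxr _ hd (by tauto))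
    (hxr _ he1 (by tauto)) (hxr _ he2 (by tauto)) (hdr _ he1 (by tauto)) (hdr _ he2 (by tauto))
    h1' h2' ?_ ?_ ?_ ?_ ?_ ?_ ?_ ?_ ?_
  all_goals
    intro hh
    first
      | exact hdis d (by tauto)
      | exact hdis e1 (by tauto)
      | exact hdis e2 (by tauto)

theorem fOK_sound {c : ℕ → ℕ → Bool} (hc : Good c) {k : Bool} {X w : ℕ} (hX : Col c k X)
    (h : fOK X w = true) : False :=
  fOK'_sound hc hX (nib_lt _ _) (nib_lt _ _) (nib_lt _ _) (nib_lt _ _) (nib_lt _ _) (nib_lt _ _)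
    (nib_lt _ _) h

theorem testBit_orPow (p m j : ℕ) : (orPow p m).testBit j = true ↔ ∃ i, i < m ∧ pv p i = j := by
  induction m with
  | zero => simp [orPow]
  | succ m ih =>
    unfold orPow
    rw [testBit_lor, testBit_bit, Bool.or_eq_true, ih, decide_eq_true_eq]
    constructor
    · rintro (⟨i, hi, h⟩ | h)
      · exact ⟨i, by omega, h⟩
      · exact ⟨m, by omega, h⟩
    · rintro ⟨i, hi, h⟩
      rcases Nat.lt_succ_iff_lt_or_eq.1 hi with h' | h'
      · exact Or.inl ⟨i, h', h⟩
      · subst h'; exact Or.inr h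

theorem perm_facts {p : ℕ} (h : orPow p 13 = 8191) :
    (∀ i, i < 13 → pv p i < 13) ∧ ∀ i j, i < 13 → j < 13 → pv p i = pv p j → i = j := by
  have h13 : ∀ j, (∃ i, i < 13 ∧ pv p i = j) ↔ j < 13 := by
    intro j
    rw [← testBit_orPow, h]
    have : (8191 : ℕ) = 2 ^ 13 - 1 := by norm_num
    rw [this, Nat.testBit_two_pow_sub_one, decide_eq_true_eq]
  have hlt : ∀ i, i < 13 → pv p i < 13 := fun i hi => (h13 _).1 ⟨i, hi, rfl⟩
  refine ⟨hlt, ?_⟩
  let g : Fin 13 → Fin 13 := fun i => ⟨pv p i, hlt i i.2⟩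
  have hs : Function.Surjective g := by
    intro j
    obtain ⟨i, hi, hj⟩ := (h13 j).2 j.2
    exact ⟨⟨i, hi⟩, Fin.ext hj⟩
  have hinj : Function.Injective g := Finite.injective_iff_surjective.2 hs
  intro i j hi hj hij
  have : g ⟨i, hi⟩ = g ⟨j, hj⟩ := Fin.ext hij
  exact congrArg Fin.val (hinj this)

theorem Good.perm {c : ℕ → ℕ → Bool} (hc : Good c) {p : ℕ} (h : orPow p 13 = 8191) :
    Good (fun u v => c (pv p u) (pv p v)) := by
  obtain ⟨hlt, hinj⟩ := perm_facts h
  have hE : ∀ {k u v}, E (fun u v => c (pv p u) (pv p v)) k u v → E c k (pv p u) (pv p v) :=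
    fun {k u v} he => ⟨hlt _ he.1, hlt _ he.2.1, fun e => he.2.2.1 (hinj _ _ he.1 he.2.1 e),
      he.2.2.2⟩
  have hne : ∀ {u v}, u < 13 → v < 13 → u ≠ v → pv p u ≠ pv p v :=
    fun {u v} hu hv huv e => huv (hinj _ _ hu hv e)
  refine ⟨fun u v => hc.symm _ _, ?_⟩
  intro k x b a1 a2 d e1 e2 h1 h2 h3 h4 h5 h6 h7 h8 h9 h10 n1 n2 n3 n4 n5 n6 n7 n8 n9 n10 n11
  have lb := h1.2.1
  have la1 := h2.2.1
  have la2 := h3.2.1
  have ld := h6.2.1
  have le1 := h7.2.1
  have le2 := h8.2.1
  exact hc.free k _ _ _ _ _ _ _ (hE h1) (hE h2) (hE h3) (hE h4) (hE h5) (hE h6) (hE h7) (hE h8)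
    (hE h9) (hE h10) (hne la1 la2 n1) (hne le1 le2 n2) (hne lb ld n3) (hne lb le1 n4)
    (hne lb le2 n5) (hne la1 ld n6) (hne la1 le1 n7) (hne la1 le2 n8) (hne la2 ld n9)
    (hne la2 le1 n10) (hne la2 le2 n11)

theorem E_not {c : ℕ → ℕ → Bool} {k : Bool} {u v : ℕ} :
    E (fun u v => !c u v) k u v ↔ E c (!k) u v := by
  unfold E
  have : ((!c u v) = k) ↔ (c u v = !k) := by cases k <;> cases c u v <;> simp
  simp only [this]

theorem Good.not {c : ℕ → ℕ → Bool} (hc : Good c) : Good (fun u v => !c u v) := by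
  refine ⟨fun u v => by rw [hc.symm], ?_⟩
  intro k x b a1 a2 d e1 e2 h1 h2 h3 h4 h5 h6 h7 h8 h9 h10
  rw [E_not] at h1 h2 h3 h4 h5 h6 h7 h8 h9 h10
  exact hc.free _ x b a1 a2 d e1 e2 h1 h2 h3 h4 h5 h6 h7 h8 h9 h10

theorem refChk_sound {c : ℕ → ℕ → Bool} {p R B : ℕ} (hR : Col c true R) (hB : Col c false B) :
    ∀ f e, refChk p R B f e = true → hold (fun u v => c (pv p u) (pv p v)) f e := by
  intro f
  induction f with
  | zero => intro e _; trivial
  | succ f ih =>
    intro e h
    unfold refChk at h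
    unfold hold
    simp only [Bool.or_eq_true, Bool.and_eq_true] at h
    rcases h with h | ⟨h1, h2⟩
    · exact Or.inl (Nat.le_of_ble_eq_true h)
    · refine Or.inr ⟨?_, ih _ h2⟩
      have h3 := tb_eq _ _ h1
      cases hr : isRed e
      · rw [hr] at h3
        exact (hB _ _ (nib_lt _ _) (nib_lt _ _) h3).2.2.2
      · rw [hr] at h3
        exact (hR _ _ (nib_lt _ _) (nib_lt _ _) h3).2.2.2

theorem refOK_sound {tbl : List ℕ} {k : ℕ} (H : ∀ j, j < k → NG (tbl.getD j 0))
    {c : ℕ → ℕ → Bool} (hc : Good c) {R B w : ℕ} (hR : Col c true R) (hB : Col c false B)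
    (h : refOK tbl k R B w = true) : False := by
  unfold refOK at h
  simp only [Bool.and_eq_true] at h
  obtain ⟨⟨h1, h2⟩, h3⟩ := h
  have h1' := Nat.blt_eq.mp h1
  have h2' := Nat.eq_of_beq_eq_true h2
  cases hs : Nat.beq (Nat.land (Nat.shiftRight w 2) 1) 0
  · rw [hs] at h3
    have hR' : Col (fun u v => !c u v) true B := fun u v hu hv h => E_not.2 (hB u v hu hv h)
    have hB' : Col (fun u v => !c u v) false R := fun u v hu hv h => E_not.2 (hR u v hu hv h)
    exact H _ h1' _ (hc.not.perm h2') (refChk_sound hR' hB' _ _ h3)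
  · rw [hs] at h3
    exact H _ h1' _ (hc.perm h2') (refChk_sound hR hB _ _ h3)

theorem chk_sound {tbl : List ℕ} {k : ℕ} (H : ∀ j, j < k → NG (tbl.getD j 0))
    {c : ℕ → ℕ → Bool} (hc : Good c) :
    ∀ f R B s, Col c true R → Col c false B → chk tbl k f R B s = 0 := by
  intro f
  induction f with
  | zero => intro R B s _ _; rfl
  | succ f ih =>
    intro R B s hR hB
    unfold chk
    cases h0 : Nat.beq (Nat.land s 3) 0
    · cases h1 : Nat.beq (Nat.land s 3) 1
      · cases h2 : Nat.beq (Nat.land s 3) 2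
        · cases h3 : refOK tbl k R B (Nat.land s 36893488147419103231)
          · rfl
          · exact (refOK_sound H hc hR hB h3).elim
        · cases h3 : fOK B (Nat.land s 1073741823)
          · rfl
          · exact (fOK_sound hc hB h3).elim
      · cases h3 : fOK R (Nat.land s 1073741823)
        · rfl
        · exact (fOK_sound hc hR h3).elim
    · cases h1 : (Nat.blt (nib s 2) (nib s 6) && Nat.blt (nib s 6) 13)
      · rfl
      · simp only [Bool.and_eq_true, Nat.blt_eq] at h1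
        obtain ⟨h1, h2⟩ := h1
        simp only [cond_true]
        cases hcol : c (nib s 2) (nib s 6)
        · have hE : E c false (nib s 2) (nib s 6) := ⟨by omega, h2, by omega, hcol⟩
          rw [ih R _ _ hR (Col_add hc hB hE)]
          cases Nat.beq _ 0 <;> rfl
        · have hE : E c true (nib s 2) (nib s 6) := ⟨by omega, h2, by omega, hcol⟩
          rw [ih _ B _ (Col_add hc hR hE) hB]
          rfl

theorem start_sound {tbl : List ℕ} {k s : ℕ} (H : ∀ j, j < k → NG (tbl.getD j 0))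
    {c : ℕ → ℕ → Bool} (hc : Good c) :
    ∀ f e R B, Col c true R → Col c false B → hold c f e → start tbl k s f e R B = false := by
  intro f
  induction f with
  | zero =>
    intro e R B hR hB _
    unfold start
    rw [chk_sound H hc _ _ _ _ hR hB]
    rfl
  | succ f ih =>
    intro e R B hR hB hh
    unfold start
    cases h0 : Nat.ble e 1
    · cases h1 : (Nat.blt (nib e 0) (nib e 4) && Nat.blt (nib e 4) 13)
      · rfl
      · simp only [Bool.and_eq_true, Nat.blt_eq] at h1
        obtain ⟨h1, h2⟩ := h1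
        unfold hold at hh
        rcases hh with hh | ⟨hh1, hh2⟩
        · rw [Nat.ble_eq.mpr hh] at h0
          exact absurd h0 (by simp)
        · cases hr : isRed e
          · rw [hr] at hh1
            have hE : E c false (nib e 0) (nib e 4) := ⟨by omega, h2, by omega, hh1⟩
            exact ih _ _ _ hR (Col_add hc hB hE) hh2
          · rw [hr] at hh1
            have hE : E c true (nib e 0) (nib e 4) := ⟨by omega, h2, by omega, hh1⟩
            exact ih _ _ _ (Col_add hc hR hE) hB hh2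
    · rw [chk_sound H hc _ _ _ _ hR hB]
      rfl

theorem Col_zero (c : ℕ → ℕ → Bool) (k : Bool) : Col c k 0 := by
  intro u v _ _ h
  simp at h

theorem chkAll_sound {tbl : List ℕ} : ∀ (ts : List ℕ) (k : ℕ),
    (∀ j, j < k → NG (tbl.getD j 0)) → chkAll tbl k ts = true →
    ∀ j, j < k + ts.length → NG (tbl.getD j 0) := by
  intro ts
  induction ts with
  | nil => intro k H _ j hj; exact H j (by simpa using hj)
  | cons t ts ih =>
    intro k H h j hj
    unfold chkAll at h
    simp only [Bool.and_eq_true] at h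
    have hk : NG (tbl.getD k 0) := by
      intro c hc hh
      rw [start_sound H hc _ _ _ _ (Col_zero _ _) (Col_zero _ _) hh] at h
      exact absurd h.1 (by simp)
    refine ih (k + 1) ?_ h.2 j (by simp at hj; omega)
    intro i hi
    rcases Nat.lt_succ_iff_lt_or_eq.1 hi with h' | h'
    · exact H i h'
    · subst h'; exact hk

end Pool.Agent.MP_62567c_co
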