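import Mathlib.Tactic.NormNum.Ineq
import Mathlib.Algebra.Order.Ring.Star
import Pool.Agent.MP_62567c_co.Check
import Pool.Agent.MP_62567c_co.Cert

/-! The certificate is accepted, so no colouring of `K13` avoids a monochromatic `K1 + 2 P3`. -/

namespace Pool.Agent.MP_62567c_co

theorem cert_ok : chkAll stmts 0 trees = true := by decide +kernel

theorem last_empty : stmts.getD 462 0 = 1 := by decide +kernel

theorem trees_length : trees.length = 463 := by decide +kernel

theorem not_good (c : ℕ → ℕ → Bool) : ¬ Good c := by
  intro hc
  have h := chkAll_sound trees 0 (fun j hj => absurd hj (Nat.not_lt_zero j)) cert_ok 462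
    (by rw [trees_length]; norm_num)
  rw [last_empty] at h
  exact h c hc (Or.inl le_rfl)

end Pool.Agent.MP_62567c_co
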