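import Mathlib.Order.Lattice.Nat
import Mathlib.Tactic.FinCases
import Mathlib.Data.Fin.VecNotation
import Mathlib.Data.Set.Card
import Mathlib.Combinatorics.SimpleGraph.Copy
import Pool.Agent.MP_62567c_co.Upper

/-! The graph `F = K1 + 2 P3` has Ramsey number 13 and Ramsey multiplicity one. -/

namespace Pool.Agent.MP_62567c_co

open SimpleGraph

def fadj (i j : Fin 7) : Bool := ([96, 96, 80, 80, 76, 67, 63].getD i.val 0).testBit j.val

/-- The graph `K1 + 2 P3`: the hub `6` is joined to the paths `0 - 5 - 1` and `2 - 4 - 3`. -/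
def F : SimpleGraph (Fin 7) where
  Adj i j := fadj i j = true
  symm := ⟨by decide⟩
  loopless := ⟨by decide⟩

instance : DecidableRel F.Adj := fun i j => inferInstanceAs (Decidable (fadj i j = true))

/-- `g` embeds `F` in `G`. -/
def Emb {V : Type} (G : SimpleGraph V) (g : Fin 7 → V) : Prop :=
  Function.Injective g ∧ ∀ i j, F.Adj i j → G.Adj (g i) (g j)

theorem exists_emb_of_iso {V : Type} {G : SimpleGraph V} (H : G.Subgraph) (φ : H.coe ≃g F) :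
    ∃ g : Fin 7 → V, Emb G g ∧ (∀ u, u ∈ H.verts ↔ ∃ i, g i = u) ∧
      ∀ u v, H.Adj u v ↔ ∃ i j, F.Adj i j ∧ g i = u ∧ g j = v := by
  refine ⟨fun i => (φ.symm i : V), ⟨?_, ?_⟩, ?_, ?_⟩
  · intro i j hij
    exact φ.symm.injective (Subtype.ext hij)
  · intro i j hij
    have : H.coe.Adj (φ.symm i) (φ.symm j) := φ.symm.map_rel_iff.2 hij
    exact H.adj_sub this
  · intro u
    constructor
    · intro hu
      exact ⟨φ ⟨u, hu⟩, by simp⟩
    · rintro ⟨i, rfl⟩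
      exact (φ.symm i).2
  · intro u v
    constructor
    · intro h
      refine ⟨φ ⟨u, H.edge_vert h⟩, φ ⟨v, H.edge_vert h.symm⟩, ?_, by simp, by simp⟩
      exact φ.map_rel_iff.2 h
    · rintro ⟨i, j, hij, rfl, rfl⟩
      exact φ.symm.map_rel_iff.2 hij

theorem exists_iso_of_emb {V : Type} {G : SimpleGraph V} {g : Fin 7 → V} (h : Emb G g) :
    ∃ H : G.Subgraph, Nonempty (H.coe ≃g F) := by
  have : F ⊑ G := ⟨⟨⟨g, fun {i j} hij => h.2 i j hij⟩, h.1⟩⟩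
  obtain ⟨H, ⟨φ⟩⟩ := isContained_iff_exists_iso_subgraph.1 this
  exact ⟨H, ⟨φ.symm⟩⟩

theorem emb_of_pattern {V : Type} {G : SimpleGraph V} {x b a1 a2 d e1 e2 : V}
    (h1 : G.Adj x b) (h2 : G.Adj x a1) (h3 : G.Adj x a2) (h4 : G.Adj b a1) (h5 : G.Adj b a2)
    (h6 : G.Adj x d) (h7 : G.Adj x e1) (h8 : G.Adj x e2) (h9 : G.Adj d e1) (h10 : G.Adj d e2)
    (n1 : a1 ≠ a2) (n2 : e1 ≠ e2) (n3 : b ≠ d) (n4 : b ≠ e1) (n5 : b ≠ e2) (n6 : a1 ≠ d)
    (n7 : a1 ≠ e1) (n8 : a1 ≠ e2) (n9 : a2 ≠ d) (n10 : a2 ≠ e1) (n11 : a2 ≠ e2) :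
    Emb G ![a1, a2, e1, e2, d, b, x] := by
  have m1 := h1.ne
  have m2 := h2.ne
  have m3 := h3.ne
  have m4 := h4.ne
  have m5 := h5.ne
  have m6 := h6.ne
  have m7 := h7.ne
  have m8 := h8.ne
  have m9 := h9.ne
  have m10 := h10.ne
  constructor
  · intro i j hij
    fin_cases i <;> fin_cases j <;> first | rfl | (exfalso; simp_all)
  · intro i j hij
    fin_cases i <;> fin_cases j <;>
      first
        | (exfalso; revert hij; decide)
        | assumption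
        | (apply Adj.symm; assumption)

theorem upper (G : SimpleGraph (Fin 13)) :
    (∃ H : G.Subgraph, Nonempty (H.coe ≃g F)) ∨ ∃ H : Gᶜ.Subgraph, Nonempty (H.coe ≃g F) := by
  classical
  by_contra hcon
  rw [not_or] at hcon
  let c : ℕ → ℕ → Bool := fun u v =>
    decide (∃ (hu : u < 13) (hv : v < 13), G.Adj ⟨u, hu⟩ ⟨v, hv⟩)
  have hT : ∀ {u v} (h : E c true u v), G.Adj ⟨u, h.1⟩ ⟨v, h.2.1⟩ := by
    intro u v h
    obtain ⟨_, _, h'⟩ := of_decide_eq_true h.2.2.2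
    exact h'
  have hF : ∀ {u v} (h : E c false u v), Gᶜ.Adj ⟨u, h.1⟩ ⟨v, h.2.1⟩ := by
    intro u v h
    have h' := of_decide_eq_false h.2.2.2
    exact (compl_adj _ _ _).2 ⟨fun e => h.2.2.1 (congrArg Fin.val e), fun a => h' ⟨_, _, a⟩⟩
  have hne : ∀ {u v : ℕ} {hu : u < 13} {hv : v < 13}, u ≠ v → (⟨u, hu⟩ : Fin 13) ≠ ⟨v, hv⟩ :=
    fun h e => h (congrArg Fin.val e)
  apply not_good c
  constructor
  · intro u v
    apply decide_eq_decide.2
    exact ⟨fun ⟨hu, hv, h⟩ => ⟨hv, hu, h.symm⟩, fun ⟨hu, hv, h⟩ => ⟨hv, hu, h.symm⟩⟩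
  · intro k x b a1 a2 d e1 e2 h1 h2 h3 h4 h5 h6 h7 h8 h9 h10 n1 n2 n3 n4 n5 n6 n7 n8 n9 n10 n11
    cases k
    · exact hcon.2 (exists_iso_of_emb (emb_of_pattern (hF h1) (hF h2) (hF h3) (hF h4) (hF h5)
        (hF h6) (hF h7) (hF h8) (hF h9) (hF h10) (hne n1) (hne n2) (hne n3) (hne n4) (hne n5)
        (hne n6) (hne n7) (hne n8) (hne n9) (hne n10) (hne n11)))
    · exact hcon.1 (exists_iso_of_emb (emb_of_pattern (hT h1) (hT h2) (hT h3) (hT h4) (hT h5)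
        (hT h6) (hT h7) (hT h8) (hT h9) (hT h10) (hne n1) (hne n2) (hne n3) (hne n4) (hne n5)
        (hne n6) (hne n7) (hne n8) (hne n9) (hne n10) (hne n11)))

/-- Two red cliques on at most six vertices each. -/
def twoCl (p : ℕ) : SimpleGraph (Fin p) where
  Adj u v := u ≠ v ∧ (u.val < 6 ↔ v.val < 6)
  symm := ⟨fun _ _ h => ⟨h.1.symm, h.2.symm⟩⟩
  loopless := ⟨fun _ h => h.1 rfl⟩

theorem lower {p : ℕ} (hp : p < 13) :
    ¬ ((∃ H : (twoCl p).Subgraph, Nonempty (H.coe ≃g F)) ∨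
      ∃ H : (twoCl p)ᶜ.Subgraph, Nonempty (H.coe ≃g F)) := by
  rintro (⟨H, ⟨φ⟩⟩ | ⟨H, ⟨φ⟩⟩)
  · obtain ⟨g, ⟨hinj, hadj⟩, -⟩ := exists_emb_of_iso H φ
    have hs : ∀ i, ((g 6).val < 6 ↔ (g i).val < 6) := by
      intro i
      by_cases hi : i = 6
      · rw [hi]
      · exact (hadj 6 i (by revert i; decide)).2
    let g' : Fin 7 → Fin 6 := fun i => ⟨(g i).val % 6, Nat.mod_lt _ (by norm_num)⟩
    have hg' : Function.Injective g' := by
      intro i j hij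
      apply hinj
      apply Fin.ext
      have h1 : (g i).val % 6 = (g j).val % 6 := congrArg Fin.val hij
      have h2 := hs i
      have h3 := hs j
      have h4 := (g i).2
      have h5 := (g j).2
      omega
    have := Fintype.card_le_of_injective g' hg'
    simp at this
  · obtain ⟨g, ⟨hinj, hadj⟩, -⟩ := exists_emb_of_iso H φ
    have key : ∀ i j, F.Adj i j → ¬ ((g i).val < 6 ↔ (g j).val < 6) := by
      intro i j hij h
      have := (compl_adj _ _ _).1 (hadj i j hij)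
      exact this.2 ⟨this.1, h⟩
    have h1 := key 6 5 (by decide)
    have h2 := key 6 0 (by decide)
    have h3 := key 5 0 (by decide)
    tauto

theorem ramsey : sInf {p : ℕ | ∀ G : SimpleGraph (Fin p),
    (∃ H : G.Subgraph, Nonempty (H.coe ≃g F)) ∨
      (∃ H : Gᶜ.Subgraph, Nonempty (H.coe ≃g F))} = 13 := by
  apply le_antisymm
  · exact Nat.sInf_le upper
  · by_contra h
    have hmem := Nat.sInf_mem (s := {p : ℕ | ∀ G : SimpleGraph (Fin p),
      (∃ H : G.Subgraph, Nonempty (H.coe ≃g F)) ∨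
        (∃ H : Gᶜ.Subgraph, Nonempty (H.coe ≃g F))}) ⟨13, upper⟩
    exact lower (not_le.1 h) (hmem _)

def radj (i j : Fin 13) : Bool :=
  ([4580, 1368, 6305, 3698, 842, 6157, 1563, 6405, 1683, 1368, 842, 4268, 2213].getD i.val 0).testBit
    j.val

def badj (i j : Fin 13) : Bool := !(i == j) && !(radj i j)

/-- The red graph of a colouring of `K13` with exactly one monochromatic copy of `F`. -/
def G0 : SimpleGraph (Fin 13) where
  Adj i j := radj i j = true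
  symm := ⟨by decide +kernel⟩
  loopless := ⟨by decide +kernel⟩

theorem G0_compl (i j : Fin 13) : G0ᶜ.Adj i j ↔ badj i j = true := by
  rw [compl_adj]
  show (i ≠ j ∧ ¬ radj i j = true) ↔ _
  simp [badj]

set_option synthInstance.maxSize 10000 in
theorem red_free : ∀ x b : Fin 13, radj x b = true → ∀ a1, radj x a1 = true → radj b a1 = true →
    ∀ a2, radj x a2 = true → radj b a2 = true → a1 ≠ a2 →
    ∀ d, radj x d = true → b ≠ d → a1 ≠ d → a2 ≠ d →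
    ∀ e1, radj x e1 = true → radj d e1 = true → b ≠ e1 → a1 ≠ e1 → a2 ≠ e1 →
    ∀ e2, radj x e2 = true → radj d e2 = true → b ≠ e2 → a1 ≠ e2 → a2 ≠ e2 → e1 ≠ e2 →
    False := by decide +kernel

set_option synthInstance.maxSize 10000 in
theorem blue_one : ∀ x b : Fin 13, badj x b = true → ∀ a1, badj x a1 = true → badj b a1 = true →
    ∀ a2, badj x a2 = true → badj b a2 = true → a1 ≠ a2 →
    ∀ d, badj x d = true → b ≠ d → a1 ≠ d → a2 ≠ d →
    ∀ e1, badj x e1 = true → badj d e1 = true → b ≠ e1 → a1 ≠ e1 → a2 ≠ e1 →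
    ∀ e2, badj x e2 = true → badj d e2 = true → b ≠ e2 → a1 ≠ e2 → a2 ≠ e2 → e1 ≠ e2 →
    x = 8 ∧
      ((b = 3 ∧ (a1 = 2 ∧ a2 = 12 ∨ a1 = 12 ∧ a2 = 2) ∧ d = 6 ∧
          (e1 = 5 ∧ e2 = 11 ∨ e1 = 11 ∧ e2 = 5)) ∨
        (d = 3 ∧ (e1 = 2 ∧ e2 = 12 ∨ e1 = 12 ∧ e2 = 2) ∧ b = 6 ∧
          (a1 = 5 ∧ a2 = 11 ∨ a1 = 11 ∧ a2 = 5))) := by decide +kernel

theorem red_count : {H : G0.Subgraph | Nonempty (H.coe ≃g F)} = ∅ := by
  rw [Set.eq_empty_iff_forall_notMem]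
  rintro H ⟨φ⟩
  obtain ⟨g, ⟨hinj, hadj⟩, -⟩ := exists_emb_of_iso H φ
  have hne : ∀ i j, i ≠ j → g i ≠ g j := fun i j h e => h (hinj e)
  exact red_free (g 6) (g 5) (hadj _ _ (by decide)) (g 0) (hadj _ _ (by decide))
    (hadj _ _ (by decide)) (g 1) (hadj _ _ (by decide)) (hadj _ _ (by decide))
    (hne _ _ (by decide)) (g 4) (hadj _ _ (by decide)) (hne _ _ (by decide))
    (hne _ _ (by decide)) (hne _ _ (by decide)) (g 2) (hadj _ _ (by decide))
    (hadj _ _ (by decide)) (hne _ _ (by decide)) (hne _ _ (by decide)) (hne _ _ (by decide))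
    (g 3) (hadj _ _ (by decide)) (hadj _ _ (by decide)) (hne _ _ (by decide))
    (hne _ _ (by decide)) (hne _ _ (by decide)) (hne _ _ (by decide))

/-- The unique blue copy. -/
def g0 : Fin 7 → Fin 13 := ![2, 12, 5, 11, 6, 3, 8]

theorem blue_shape {g : Fin 7 → Fin 13} (h : Emb G0ᶜ g) :
    (∀ u, (∃ i, g i = u) ↔ ∃ i, g0 i = u) ∧
      ∀ u v, (∃ i j, F.Adj i j ∧ g i = u ∧ g j = v) ↔ ∃ i j, F.Adj i j ∧ g0 i = u ∧ g0 j = v := by
  obtain ⟨hinj, hadj'⟩ := h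
  have hadj : ∀ i j, F.Adj i j → badj (g i) (g j) = true :=
    fun i j h => (G0_compl _ _).1 (hadj' i j h)
  have hne : ∀ i j, i ≠ j → g i ≠ g j := fun i j h e => h (hinj e)
  have key := blue_one (g 6) (g 5) (hadj _ _ (by decide)) (g 0) (hadj _ _ (by decide))
    (hadj _ _ (by decide)) (g 1) (hadj _ _ (by decide)) (hadj _ _ (by decide))
    (hne _ _ (by decide)) (g 4) (hadj _ _ (by decide)) (hne _ _ (by decide))
    (hne _ _ (by decide)) (hne _ _ (by decide)) (g 2) (hadj _ _ (by decide))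
    (hadj _ _ (by decide)) (hne _ _ (by decide)) (hne _ _ (by decide)) (hne _ _ (by decide))
    (g 3) (hadj _ _ (by decide)) (hadj _ _ (by decide)) (hne _ _ (by decide))
    (hne _ _ (by decide)) (hne _ _ (by decide)) (hne _ _ (by decide))
  have hg : g = ![g 0, g 1, g 2, g 3, g 4, g 5, g 6] := by
    funext i
    fin_cases i <;> rfl
  obtain ⟨h6, ⟨h5, ⟨h0, h1⟩ | ⟨h0, h1⟩, h4, ⟨h2, h3⟩ | ⟨h2, h3⟩⟩ |
    ⟨h4, ⟨h2, h3⟩ | ⟨h2, h3⟩, h5, ⟨h0, h1⟩ | ⟨h0, h1⟩⟩⟩ := key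
  all_goals
    rw [h0, h1, h2, h3, h4, h5, h6] at hg
    rw [hg]
    decide +kernel

theorem g0_emb : Emb G0ᶜ g0 := by
  refine ⟨by decide, fun i j h => (G0_compl _ _).2 ?_⟩
  revert i j
  decide +kernel

theorem blue_count : {H : G0ᶜ.Subgraph | Nonempty (H.coe ≃g F)}.ncard = 1 := by
  obtain ⟨H0, ⟨φ0⟩⟩ := exists_iso_of_emb g0_emb
  rw [Set.ncard_eq_one]
  refine ⟨H0, Set.eq_singleton_iff_unique_mem.2 ⟨⟨φ0⟩, ?_⟩⟩
  rintro H ⟨φ⟩
  obtain ⟨g, hg, hv, ha⟩ := exists_emb_of_iso H φ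
  obtain ⟨g', hg', hv', ha'⟩ := exists_emb_of_iso H0 φ0
  apply Subgraph.ext
  · ext u
    rw [hv, hv', (blue_shape hg).1, (blue_shape hg').1]
  · ext u v
    rw [ha, ha', (blue_shape hg).2, (blue_shape hg').2]

theorem one_copy {m : ℕ} (hm : m = 13) : ∃ G : SimpleGraph (Fin m),
    {H : G.Subgraph | Nonempty (H.coe ≃g F)}.ncard +
      {H : Gᶜ.Subgraph | Nonempty (H.coe ≃g F)}.ncard = 1 := by
  subst hm
  exact ⟨G0, by rw [red_count, blue_count, Set.ncard_empty]⟩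

theorem not_K2 : ¬ Nonempty (F ≃g (⊤ : SimpleGraph (Fin 2))) := by
  rintro ⟨φ⟩
  have := Fintype.card_congr φ.toEquiv
  simp at this

theorem not_star (n : ℕ) : ¬ Nonempty (F ≃g completeBipartiteGraph (Fin 1) (Fin n)) := by
  rintro ⟨φ⟩
  have h1 := φ.map_rel_iff.2 (show F.Adj 6 5 by decide)
  have h2 := φ.map_rel_iff.2 (show F.Adj 6 0 by decide)
  have h3 := φ.map_rel_iff.2 (show F.Adj 5 0 by decide)
  rcases h : φ 6 with a | a <;> rcases h' : φ 5 with b | b <;> rcases h'' : φ 0 with d | d <;>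
    simp_all

end Pool.Agent.MP_62567c_co
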